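import Pool.Agent.V1120.LN.Main

/-!
# Starshapedness from clear visibility of `d + 1` points of local nonconvexity

Problem MP_ad2f8c_co, Q1: for every `d`, the number `n(d) = d + 1` works: a compact connected set
`E` in `ℝ^d` any `d + 1` of whose points of local nonconvexity are clearly visible from a common
point of `E` is starshaped.

Idea. By Helly's theorem there is a point `y` in the closed convex hulls of the sets `V(q)` of
points from which the points `q` of local nonconvexity are clearly visible (if there are no such
`q`, take any `y ∈ E`). If some `z ∈ E` is not visible from `y`, then Krasnosel'skii's ball argument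
gives a point `x ∈ E` and a linear functional `h` with `h y < h x` such that `x` is visible only
from points with `h ≥ h x`. Every point of local nonconvexity is then clearly visible from some
point with `h < h x`. The set of points of `E` from which a polygonal path in `E` with strictly
decreasing `h` leads to `{h < h x}` is open and closed in `E`; so it contains `x`, a
contradiction.
-/

namespace Pool.Agent.Results.MP_ad2f8c_co.StarshapedLNC

open Pool.Agent.V1120.LN

/-- Let `E ⊆ ℝ^d` be compact and connected, and suppose that for any `d + 1` points of local
nonconvexity of `E` (not necessarily distinct) there is a single point of `E` from which all of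
them are clearly visible. Then `E` is starshaped. -/
theorem result (d : ℕ) (E : Set (EuclideanSpace ℝ (Fin d))) (hE : IsCompact E)
    (hconn : IsConnected E)
    (hC : ∀ x : Fin (d + 1) → EuclideanSpace ℝ (Fin d), (∀ i, LNC E (x i)) →
      ∃ y ∈ E, ∀ i, ClearlyVisible E (x i) y) :
    ∃ y ∈ E, ∀ x ∈ E, segment ℝ y x ⊆ E := by
  apply starshaped_of_propC hE hconn
  rw [finrank_euclideanSpace_fin]
  exact hC

end Pool.Agent.Results.MP_ad2f8c_co.StarshapedLNC
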